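import Mathlib
import Pool.Agent.PLG.Stmts

set_option autoImplicit false

open Finset
open scoped Pointwise

namespace Pool.Agent.PLG.H95

variable {E : Type} [NormedAddCommGroup E] [NormedSpace ℝ E]

/-- unique decomposition along two lines -/
theorem uniq {G : AddSubgroup ℂ} {s t : ℝ} (hst : s ≠ t) {y y' z z' : ℂ}
    (hy : y ∈ lp G s) (hy' : y' ∈ lp G s) (hz : z ∈ lp G t) (hz' : z' ∈ lp G t)
    (h : y + z = y' + z') : y = y' ∧ z = z' := by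
  have h1 : y - y' = z' - z := by linear_combination h
  have h2 : y - y' ∈ lp G s := (lp G s).sub_mem hy hy'
  have h3 : z' - z ∈ lp G t := (lp G t).sub_mem hz' hz
  rw [← h1] at h3
  have h4 : y - y' = 0 := eq_zero_of_slopes hst h2.2 h3.2
  rw [h4] at h1
  exact ⟨sub_eq_zero.1 h4, (sub_eq_zero.1 h1.symm).symm⟩

/-- step (2) -/
theorem step2 (f : ℂ →+ E) (G : AddSubgroup ℂ) (W : Finset ℝ) (j H t₁ t₂ t₃ : ℝ)
    (hN : Nar f G W j H) (h1 : t₁ ∈ W) (h2 : t₂ ∈ W) (h3 : t₃ ∈ W) (h23 : t₂ ≠ t₃) :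
    ∀ x ∈ lp G t₁, 0 < x.re → ‖f x‖ * (H + 1) ≤ 1 →
      ∃ c : ℕ, 1 ≤ c ∧ (c : ℝ) ≤ H ∧ ∃ y ∈ lp G t₂, ∃ z ∈ lp G t₃, (c : ℂ) * x = y + z ∧
        ‖f y‖ ≤ 4 ∧ ‖f z‖ ≤ 4 := by
  classical
  intro x hx hre hxs
  have hH0 : 0 < H := by linarith [hN.hH]
  have hcard : ∀ t ∈ W, j / 3 ≤ ((ps f (lp G t) 1).card : ℝ) := by
    intro t ht
    have h4 := card_ps_lp hN.dsc (zero_le_one : (0 : ℝ) ≤ 1) t
    have h5 := hN.lines t ht
    rw [h4] at h5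
    push_cast at h5
    have := hN.hj
    linarith
  obtain ⟨a, b, hab, hcone⟩ := hN.narrow
  obtain ⟨S1, hS1⟩ : ∃ S : Finset ℂ, S = ps f (lp G t₁) 1 := ⟨_, rfl⟩
  obtain ⟨S2, hS2⟩ : ∃ S : Finset ℂ, S = ps f (lp G t₂) 1 := ⟨_, rfl⟩
  obtain ⟨S3, hS3⟩ : ∃ S : Finset ℂ, S = ps f (lp G t₃) 1 := ⟨_, rfl⟩
  have hm : ∀ (t : ℝ) (u : ℂ), u ∈ ps f (lp G t) 1 ↔ u ∈ lp G t ∧ ‖f u‖ ≤ 1 ∧ 0 < u.re :=
    fun t u => mem_ps (hN.dsc.lp t)
  have hc1 := hcard t₁ h1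
  have hc2 := hcard t₂ h2
  have hc3 := hcard t₃ h3
  rw [← hS1] at hc1
  rw [← hS2] at hc2
  rw [← hS3] at hc3
  have hj := hN.hj
  -- the sum set
  have hB : ((S2 + S3).card : ℝ) = S2.card * S3.card := by
    have h5 : (S2 + S3).card = S2.card * S3.card := by
      apply Finset.card_add_iff.2
      rintro ⟨u, v⟩ huv ⟨u', v'⟩ huv' heq
      simp only [Set.mem_prod, Finset.mem_coe] at huv huv' heq
      rw [hS2, hS3, hm, hm] at huv huv'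
      obtain ⟨h6, h7⟩ := uniq h23 huv.1.1 huv'.1.1 huv.2.1 huv'.2.1 heq
      rw [h6, h7]
    rw [h5]
    push_cast
    rfl
  have hBpos : j ^ 2 / 9 ≤ ((S2 + S3).card : ℝ) := by
    rw [hB]
    have : j / 3 * (j / 3) ≤ (S2.card : ℝ) * S3.card :=
      mul_le_mul hc2 hc3 (by linarith) (by positivity)
    calc j ^ 2 / 9 = j / 3 * (j / 3) := by ring
      _ ≤ _ := this
  have hBne : (S2 + S3).Nonempty := by
    rw [← Finset.card_pos]
    have : (0 : ℝ) < ((S2 + S3).card : ℝ) := by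
      have : 0 < j ^ 2 / 9 := by positivity
      linarith
    exact_mod_cast this
  have hsub : S1 + (S2 + S3) ⊆ cone f G 6 a b := by
    intro w hw
    obtain ⟨u, hu, v, hv, rfl⟩ := Finset.mem_add.1 hw
    obtain ⟨v2, hv2, v3, hv3, rfl⟩ := Finset.mem_add.1 hv
    rw [hS1, hm] at hu
    rw [hS2, hm] at hv2
    rw [hS3, hm] at hv3
    obtain ⟨⟨hu1, hu2⟩, hu3, hu4⟩ := hu
    obtain ⟨⟨hv21, hv22⟩, hv23, hv24⟩ := hv2
    obtain ⟨⟨hv31, hv32⟩, hv33, hv34⟩ := hv3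
    have hu2' : u.im = t₁ * u.re := hu2
    have hv22' : v2.im = t₂ * v2.re := hv22
    have hv32' : v3.im = t₃ * v3.re := hv32
    rw [mem_cone hN.dsc]
    refine ⟨G.add_mem hu1 (G.add_mem hv21 hv31), ?_, ?_, ?_, ?_⟩
    · rw [map_add, map_add]
      calc ‖f u + (f v2 + f v3)‖ ≤ ‖f u‖ + ‖f v2 + f v3‖ := norm_add_le _ _
        _ ≤ ‖f u‖ + (‖f v2‖ + ‖f v3‖) := by linarith [norm_add_le (f v2) (f v3)]
        _ ≤ 6 := by linarith
    · simp only [Complex.add_re]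
      linarith
    · simp only [Complex.add_re, Complex.add_im, hu2', hv22', hv32']
      have e1 := mul_le_mul_of_nonneg_right (hab t₁ h1).1 hu4.le
      have e2 := mul_le_mul_of_nonneg_right (hab t₂ h2).1 hv24.le
      have e3 := mul_le_mul_of_nonneg_right (hab t₃ h3).1 hv34.le
      linarith
    · simp only [Complex.add_re, Complex.add_im, hu2', hv22', hv32']
      have e1 := mul_le_mul_of_nonneg_right (hab t₁ h1).2 hu4.le
      have e2 := mul_le_mul_of_nonneg_right (hab t₂ h2).2 hv24.le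
      have e3 := mul_le_mul_of_nonneg_right (hab t₃ h3).2 hv34.le
      linarith
  have hK : ((S1 + (S2 + S3)).card : ℝ) ≤ H * (S2 + S3).card := by
    have h5 : ((S1 + (S2 + S3)).card : ℝ) ≤ ((cone f G 6 a b).card : ℝ) := by
      exact_mod_cast Finset.card_le_card hsub
    have h6 : H * (j ^ 2 / 9) ≤ H * (S2 + S3).card := mul_le_mul_of_nonneg_left hBpos hH0.le
    linarith
  obtain ⟨F, _, hF, hcov⟩ := Finset.ruzsa_covering_add hBne hK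
  -- the multiples
  obtain ⟨N, hNd⟩ : ∃ N : ℕ, N = ⌊H⌋₊ := ⟨_, rfl⟩
  have hN1 : (N : ℝ) ≤ H := by rw [hNd]; exact Nat.floor_le hH0.le
  have hFN : F.card ≤ N := by rw [hNd]; exact Nat.le_floor hF
  have hmul : ∀ n ∈ Finset.Icc 1 (N + 1), (n : ℂ) * x ∈ S1 := by
    intro n hn
    rw [Finset.mem_Icc] at hn
    rw [hS1, hm]
    have hnR : (n : ℝ) ≤ H + 1 := by
      have : (n : ℝ) ≤ N + 1 := by exact_mod_cast hn.2
      linarith
    have hn1 : (1 : ℝ) ≤ n := by exact_mod_cast hn.1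
    refine ⟨mem_of_nat_mul n hx, ?_, ?_⟩
    · rw [norm_f_nat]
      calc (n : ℝ) * ‖f x‖ ≤ (H + 1) * ‖f x‖ := mul_le_mul_of_nonneg_right hnR (norm_nonneg _)
        _ ≤ 1 := by linarith
    · have : ((n : ℂ) * x).re = n * x.re := by
        simp [Complex.mul_re]
      rw [this]
      positivity
  have hch : ∀ n ∈ Finset.Icc 1 (N + 1), ∃ s ∈ F, (n : ℂ) * x - s ∈ (S2 + S3) - (S2 + S3) := by
    intro n hn
    obtain ⟨s, hs, w, hw, hsw⟩ := Finset.mem_add.1 (hcov (hmul n hn))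
    refine ⟨s, hs, ?_⟩
    rw [← hsw, add_sub_cancel_left]
    exact hw
  choose! σ hσF hσ using hch
  obtain ⟨m, hm1, n, hn1, hmn, hσe⟩ : ∃ m ∈ Finset.Icc 1 (N + 1), ∃ n ∈ Finset.Icc 1 (N + 1),
      m ≠ n ∧ σ m = σ n := by
    apply Finset.exists_ne_map_eq_of_card_lt_of_maps_to (t := F)
    · rw [Nat.card_Icc]
      omega
    · exact hσF
  obtain ⟨m, n, hm1, hn1, hmn, hσe⟩ : ∃ m n : ℕ, m ∈ Finset.Icc 1 (N + 1) ∧
      n ∈ Finset.Icc 1 (N + 1) ∧ m < n ∧ σ m = σ n := by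
    rcases lt_or_gt_of_ne hmn with h | h
    · exact ⟨m, n, hm1, hn1, h, hσe⟩
    · exact ⟨n, m, hn1, hm1, h, hσe.symm⟩
  have hdm := hσ m hm1
  have hdn := hσ n hn1
  obtain ⟨p1, hp1, p2, hp2, hp⟩ := Finset.mem_sub.1 hdn
  obtain ⟨q1, hq1, q2, hq2, hq⟩ := Finset.mem_sub.1 hdm
  obtain ⟨u1, hu1, v1, hv1, rfl⟩ := Finset.mem_add.1 hp1
  obtain ⟨u2, hu2, v2, hv2, rfl⟩ := Finset.mem_add.1 hp2
  obtain ⟨u3, hu3, v3, hv3, rfl⟩ := Finset.mem_add.1 hq1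
  obtain ⟨u4, hu4, v4, hv4, rfl⟩ := Finset.mem_add.1 hq2
  rw [hS2, hm] at hu1 hu2 hu3 hu4
  rw [hS3, hm] at hv1 hv2 hv3 hv4
  rw [Finset.mem_Icc] at hm1 hn1
  have hcast : ((n - m : ℕ) : ℂ) = (n : ℂ) - m := by
    push_cast [Nat.cast_sub hmn.le]
    rfl
  refine ⟨n - m, by omega, ?_, u1 - u2 - (u3 - u4), ?_, v1 - v2 - (v3 - v4), ?_, ?_, ?_, ?_⟩
  · have : ((n - m : ℕ) : ℝ) ≤ N := by
      have : n - m ≤ N := by omega
      exact_mod_cast this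
    linarith
  · exact (lp G t₂).sub_mem ((lp G t₂).sub_mem hu1.1 hu2.1) ((lp G t₂).sub_mem hu3.1 hu4.1)
  · exact (lp G t₃).sub_mem ((lp G t₃).sub_mem hv1.1 hv2.1) ((lp G t₃).sub_mem hv3.1 hv4.1)
  · rw [hcast]
    have h5 : (n : ℂ) * x = σ n + (u1 + v1 - (u2 + v2)) := by rw [hp]; ring
    have h6 : (m : ℂ) * x = σ n + (u3 + v3 - (u4 + v4)) := by rw [hq, hσe]; ring
    calc ((n : ℂ) - m) * x = (n : ℂ) * x - (m : ℂ) * x := by ring
      _ = _ := by rw [h5, h6]; ring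
  · rw [map_sub, map_sub, map_sub]
    have e1 := norm_sub_le (f u1 - f u2) (f u3 - f u4)
    have e2 := norm_sub_le (f u1) (f u2)
    have e3 := norm_sub_le (f u3) (f u4)
    linarith [hu1.2.1, hu2.2.1, hu3.2.1, hu4.2.1]
  · rw [map_sub, map_sub, map_sub]
    have e1 := norm_sub_le (f v1 - f v2) (f v3 - f v4)
    have e2 := norm_sub_le (f v1) (f v2)
    have e3 := norm_sub_le (f v3) (f v4)
    linarith [hv1.2.1, hv2.2.1, hv3.2.1, hv4.2.1]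

theorem tra_pos (f : ℂ →+ E) (G : AddSubgroup ℂ)
    (W : Finset ℝ) (j H t₁ t₂ t₃ : ℝ) (hN : Nar f G W j H) (h1 : t₁ ∈ W) (h2 : t₂ ∈ W)
    (h3 : t₃ ∈ W) (h23 : t₂ ≠ t₃) (x : ℂ) (hx : x ∈ lp G t₁) (hre : 0 < x.re)
    (hxs : ‖f x‖ * (H + 1) ≤ 1) :
    ∃ c : ℕ, 1 ≤ c ∧ (c : ℝ) ≤ H ∧ ∃ y ∈ lp G t₂, ∃ z ∈ lp G t₃, (c : ℂ) * x = y + z ∧
      ‖f y‖ ≤ 16 * H ^ 2 * ‖f x‖ ∧ ‖f z‖ ≤ 16 * H ^ 2 * ‖f x‖ := by
  classical
  have hH1 := hN.hH
  have hx0 : x ≠ 0 := by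
    intro h
    rw [h] at hre
    simp at hre
  have hfx : 0 < ‖f x‖ := norm_pos hN.dsc hx.1 hx0
  obtain ⟨Q, hQ⟩ : ∃ Q : ℕ → Prop, ∀ c, Q c ↔
      1 ≤ c ∧ ∃ y ∈ lp G t₂, ∃ z ∈ lp G t₃, (c : ℂ) * x = y + z := ⟨_, fun _ => Iff.rfl⟩
  obtain ⟨c1, hc11, hc12, y1, hy1, z1, hz1, he1, _, _⟩ :=
    step2 f G W j H t₁ t₂ t₃ hN h1 h2 h3 h23 x hx hre hxs
  have hex : ∃ c, Q c := ⟨c1, (hQ c1).2 ⟨hc11, y1, hy1, z1, hz1, he1⟩⟩
  obtain ⟨c0, hc0⟩ : ∃ c0, c0 = Nat.find hex := ⟨_, rfl⟩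
  have hQ0 : Q c0 := by rw [hc0]; exact Nat.find_spec hex
  have hmin : ∀ c, Q c → c0 ≤ c := fun c hc => by rw [hc0]; exact Nat.find_min' hex hc
  have hc0H : (c0 : ℝ) ≤ H := by
    have : c0 ≤ c1 := hmin c1 ((hQ c1).2 ⟨hc11, y1, hy1, z1, hz1, he1⟩)
    have : (c0 : ℝ) ≤ c1 := by exact_mod_cast this
    linarith
  obtain ⟨hc01, y, hy, z, hz, hyz⟩ := (hQ c0).1 hQ0
  have hdvd : ∀ c, Q c → c0 ∣ c := by
    intro c hc
    obtain ⟨_, y', hy', z', hz', he⟩ := (hQ c).1 hc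
    rw [Nat.dvd_iff_mod_eq_zero]
    by_contra hne
    have hlt : c % c0 < c0 := Nat.mod_lt _ hc01
    have hr : Q (c % c0) := by
      rw [hQ]
      refine ⟨by omega, y' - ((c / c0 : ℕ) : ℂ) * y,
        (lp G t₂).sub_mem hy' (mem_of_nat_mul _ hy), z' - ((c / c0 : ℕ) : ℂ) * z,
        (lp G t₃).sub_mem hz' (mem_of_nat_mul _ hz), ?_⟩
      have h5 : (c : ℂ) = (c0 : ℂ) * ((c / c0 : ℕ) : ℂ) + ((c % c0 : ℕ) : ℂ) := by
        exact_mod_cast (Nat.div_add_mod c c0).symm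
      have h6 : ((c % c0 : ℕ) : ℂ) * x = (c : ℂ) * x - ((c / c0 : ℕ) : ℂ) * ((c0 : ℂ) * x) := by
        rw [h5]
        ring
      rw [h6, he, hyz]
      ring
    have := hmin _ hr
    omega
  -- the large multiple
  have hden : 0 < (H + 1) * ‖f x‖ := by positivity
  obtain ⟨m, hm⟩ : ∃ m : ℕ, m = ⌊1 / ((H + 1) * ‖f x‖)⌋₊ := ⟨_, rfl⟩
  have hone : 1 ≤ 1 / ((H + 1) * ‖f x‖) := by
    rw [le_div_iff₀ hden]
    linarith
  have hm1 : 1 ≤ m := by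
    rw [hm]
    exact Nat.le_floor (by exact_mod_cast hone)
  have hmle : (m : ℝ) ≤ 1 / ((H + 1) * ‖f x‖) := by
    rw [hm]
    exact Nat.floor_le (by positivity)
  have hmge : 1 / ((H + 1) * ‖f x‖) ≤ 2 * m := by
    have h5 : 1 / ((H + 1) * ‖f x‖) < m + 1 := by
      rw [hm]
      exact Nat.lt_floor_add_one _
    have h6 : (1 : ℝ) ≤ m := by exact_mod_cast hm1
    linarith
  have hm1R : (1 : ℝ) ≤ m := by exact_mod_cast hm1
  have hmx : (m : ℂ) * x ∈ lp G t₁ := mem_of_nat_mul m hx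
  have hmre : 0 < ((m : ℂ) * x).re := by
    have : ((m : ℂ) * x).re = m * x.re := by simp [Complex.mul_re]
    rw [this]
    positivity
  have hmxs : ‖f ((m : ℂ) * x)‖ * (H + 1) ≤ 1 := by
    rw [norm_f_nat]
    rw [le_div_iff₀ hden] at hmle
    linarith
  obtain ⟨c, hc1, hcH, y', hy', z', hz', he, hy4, hz4⟩ :=
    step2 f G W j H t₁ t₂ t₃ hN h1 h2 h3 h23 _ hmx hmre hmxs
  have hcm : Q (c * m) := by
    rw [hQ]
    refine ⟨Nat.mul_pos hc1 hm1, y', hy', z', hz', ?_⟩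
    rw [← he]
    push_cast
    ring
  obtain ⟨q, hq⟩ := hdvd _ hcm
  have hq1 : 1 ≤ q := by
    rcases Nat.eq_zero_or_pos q with h | h
    · rw [h, mul_zero] at hq
      have : 0 < c * m := Nat.mul_pos hc1 hm1
      omega
    · exact h
  have hqe : (q : ℂ) * y + (q : ℂ) * z = y' + z' := by
    have h5 : (c : ℂ) * (m : ℂ) = (c0 : ℂ) * (q : ℂ) := by exact_mod_cast hq
    calc (q : ℂ) * y + (q : ℂ) * z = (q : ℂ) * ((c0 : ℂ) * x) := by rw [hyz]; ring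
      _ = ((c0 : ℂ) * (q : ℂ)) * x := by ring
      _ = (c : ℂ) * ((m : ℂ) * x) := by rw [← h5]; ring
      _ = y' + z' := he
  obtain ⟨hqy, hqz⟩ := uniq h23 (mem_of_nat_mul q hy) hy' (mem_of_nat_mul q hz) hz' hqe
  have hq1R : (1 : ℝ) ≤ q := by exact_mod_cast hq1
  have hc1R : (1 : ℝ) ≤ c := by exact_mod_cast hc1
  have hbound : ∀ w : ℂ, (q : ℝ) * ‖f w‖ ≤ 4 → ‖f w‖ ≤ 16 * H ^ 2 * ‖f x‖ := by
    intro w hw
    -- c m = c0 q
    have h5 : (c : ℝ) * (m : ℝ) = (c0 : ℝ) * (q : ℝ) := by exact_mod_cast hq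
    have h6 : (m : ℝ) ≤ H * q := by
      calc (m : ℝ) ≤ c * m := by nlinarith
        _ = c0 * q := h5
        _ ≤ H * q := mul_le_mul_of_nonneg_right hc0H (by linarith)
    have h7 : 1 ≤ 2 * m * ((H + 1) * ‖f x‖) := by
      rw [div_le_iff₀ hden] at hmge
      exact hmge
    have h8 : 1 ≤ 4 * H ^ 2 * q * ‖f x‖ := by
      calc (1 : ℝ) ≤ 2 * m * ((H + 1) * ‖f x‖) := h7
        _ ≤ 2 * (H * q) * ((2 * H) * ‖f x‖) := by
            apply mul_le_mul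
            · linarith
            · exact mul_le_mul_of_nonneg_right (by linarith) hfx.le
            · positivity
            · positivity
        _ = 4 * H ^ 2 * q * ‖f x‖ := by ring
    have h9 : (q : ℝ) * ‖f w‖ ≤ q * (16 * H ^ 2 * ‖f x‖) := by
      calc (q : ℝ) * ‖f w‖ ≤ 4 := hw
        _ ≤ 4 * (4 * H ^ 2 * q * ‖f x‖) := by linarith
        _ = _ := by ring
    exact le_of_mul_le_mul_left h9 (by linarith)
  refine ⟨c0, hc01, hc0H, y, hy, z, hz, hyz, hbound y ?_, hbound z ?_⟩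
  · rw [← norm_f_nat, hqy]
    exact hy4
  · rw [← norm_f_nat, hqz]
    exact hz4

theorem tra : TraStmt := by
  intro E _ _ f G W j H t₁ t₂ t₃ hN h1 h2 h3 _ _ h23 x hx hxs
  rcases lt_trichotomy x.re 0 with h | h | h
  · have hx' : -x ∈ lp G t₁ := (lp G t₁).neg_mem hx
    obtain ⟨c, hc1, hcH, y, hy, z, hz, he, hy4, hz4⟩ :=
      tra_pos f G W j H t₁ t₂ t₃ hN h1 h2 h3 h23 (-x) hx' (by
        rw [Complex.neg_re]
        linarith) (by rw [map_neg, norm_neg]; exact hxs)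
    rw [map_neg, norm_neg] at hy4 hz4
    refine ⟨c, hc1, hcH, -y, (lp G t₂).neg_mem hy, -z, (lp G t₃).neg_mem hz, ?_, ?_, ?_⟩
    · linear_combination -he
    · rw [map_neg, norm_neg]
      exact hy4
    · rw [map_neg, norm_neg]
      exact hz4
  · have hx0 : x = 0 := eq_zero_of_re hx.2 h
    refine ⟨1, le_rfl, by
      push_cast
      exact hN.hH, 0, (lp G t₂).zero_mem, 0, (lp G t₃).zero_mem, ?_, ?_, ?_⟩
    · rw [hx0]
      simp
    · rw [hx0, map_zero, norm_zero, mul_zero]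
    · rw [hx0, map_zero, norm_zero, mul_zero]
  · exact tra_pos f G W j H t₁ t₂ t₃ hN h1 h2 h3 h23 x hx h hxs

end Pool.Agent.PLG.H95
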